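import Pool.Agent.H590.PL.Stm

/-!
# DBA: derivative of `A` in a weight
-/

set_option autoImplicit false

open MeasureTheory Filter Topology Set

namespace Pool.Agent.H294.PL

open H590PL

variable {κ : Type} [Fintype κ]

/-- the part of `D` containing generator `k` -/
noncomputable def s2 (p : ℝ) (v : κ → P2) (k : κ) (x : P2) : ℝ :=
  ∑ j, dt (v k) (v j) ^ 2 * (p * |ip (v k) x| ^ (p - 2)) * (p * |ip (v j) x| ^ (p - 2))

lemma G1_eq (p : ℝ) (v : κ → P2) (k : κ) (x : P2) :
    G1 p v k x = Real.exp (-(Ph p v one x)) * s2 p v k x := rfl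

open Classical in
omit [Fintype κ] in
lemma bu_apply (k j : κ) (y : ℝ) : bu k y j = 1 + (if j = k then y else 0) := by
  unfold bu
  rw [Function.update_apply]
  split_ifs <;> simp

lemma Ph_bu (p : ℝ) (v : κ → P2) (k : κ) (y : ℝ) (x : P2) :
    Ph p v (bu k y) x = Ph p v one x + y * tau p v k x := by
  classical
  unfold Ph
  have e : ∀ j, bu k y j * |ip (v j) x| ^ p =
      one j * |ip (v j) x| ^ p + (if j = k then y * |ip (v j) x| ^ p else 0) := by
    intro j
    rw [bu_apply]
    simp only [one]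
    split_ifs <;> ring
  rw [Finset.sum_congr rfl fun j _ => e j, Finset.sum_add_distrib, Finset.sum_ite_eq',
    if_pos (Finset.mem_univ _)]
  rfl

lemma DD_bu (p : ℝ) (v : κ → P2) (k : κ) (y : ℝ) (x : P2) :
    DD p v (bu k y) x = DD p v one x + y * s2 p v k x := by
  classical
  obtain ⟨X, hX⟩ : ∃ X : κ → κ → ℝ, ∀ i j, X i j =
      dt (v i) (v j) ^ 2 * (p * |ip (v i) x| ^ (p - 2)) * (p * |ip (v j) x| ^ (p - 2)) :=
    ⟨_, fun _ _ => rfl⟩
  have hsym : ∀ i j, X i j = X j i := by
    intro i j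
    rw [hX, hX]
    have e : dt (v j) (v i) = - dt (v i) (v j) := by
      unfold dt
      ring
    rw [e]
    ring
  have hdt : ∀ i, dt (v i) (v i) = 0 := by
    intro i
    unfold dt
    ring
  have e : ∀ i j, dt (v i) (v j) ^ 2 * (p * bu k y i * |ip (v i) x| ^ (p - 2)) *
      (p * bu k y j * |ip (v j) x| ^ (p - 2)) =
      dt (v i) (v j) ^ 2 * (p * one i * |ip (v i) x| ^ (p - 2)) *
      (p * one j * |ip (v j) x| ^ (p - 2)) +
      ((if i = k then y * X i j else 0) + (if j = k then y * X i j else 0)) := by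
    intro i j
    rw [bu_apply, bu_apply]
    simp only [one]
    by_cases hi : i = k <;> by_cases hj : j = k
    · have hij : i = j := hi.trans hj.symm
      subst hij
      rw [hX, hdt]
      simp
    · rw [if_pos hi, if_neg hj, if_pos hi, if_neg hj, hX]
      ring
    · rw [if_neg hi, if_pos hj, if_neg hi, if_pos hj, hX]
      ring
    · rw [if_neg hi, if_neg hj, if_neg hi, if_neg hj]
      ring
  have h1 : ∑ i, ∑ j, (if i = k then y * X i j else 0) = y * ∑ j, X k j := by
    rw [Finset.sum_eq_single k]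
    · simp [Finset.mul_sum]
    · intro i _ hi
      simp [hi]
    · intro h
      exact absurd (Finset.mem_univ _) h
  have h2 : ∑ i, ∑ j, (if j = k then y * X i j else 0) = y * ∑ j, X k j := by
    simp only [Finset.sum_ite_eq', Finset.mem_univ, if_true]
    rw [← Finset.mul_sum, Finset.sum_congr rfl fun i _ => hsym i k]
  have h3 : s2 p v k x = ∑ j, X k j := Finset.sum_congr rfl fun j _ => (hX k j).symm
  unfold DD
  rw [Finset.sum_congr rfl fun i _ => Finset.sum_congr rfl fun j _ => e i j]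
  simp only [Finset.sum_add_distrib]
  rw [h1, h2, h3]
  ring

omit [Fintype κ] in
lemma tau_nonneg (p : ℝ) (v : κ → P2) (k : κ) (x : P2) : 0 ≤ tau p v k x :=
  Real.rpow_nonneg (abs_nonneg _) _

lemma tau_le (p : ℝ) (v : κ → P2) (k : κ) (x : P2) : tau p v k x ≤ Ph p v one x := by
  have h : ∀ j ∈ Finset.univ, 0 ≤ one j * |ip (v j) x| ^ p := fun j _ => by
    simp only [one, one_mul]
    exact Real.rpow_nonneg (abs_nonneg _) _
  have h1 := Finset.single_le_sum h (Finset.mem_univ k)
  unfold tau Ph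
  simpa only [one, one_mul] using h1

lemma s2_nonneg {p : ℝ} (hp : 0 < p) (v : κ → P2) (k : κ) (x : P2) : 0 ≤ s2 p v k x := by
  refine Finset.sum_nonneg fun j _ => ?_
  have h1 : 0 ≤ |ip (v k) x| ^ (p - 2) := Real.rpow_nonneg (abs_nonneg _) _
  have h2 : 0 ≤ |ip (v j) x| ^ (p - 2) := Real.rpow_nonneg (abs_nonneg _) _
  positivity

lemma DD_nonneg {p : ℝ} (hp : 0 < p) (v : κ → P2) (x : P2) : 0 ≤ DD p v one x := by
  unfold DD
  refine mul_nonneg (by norm_num) (Finset.sum_nonneg fun i _ => Finset.sum_nonneg fun j _ => ?_)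
  have h1 : 0 ≤ |ip (v i) x| ^ (p - 2) := Real.rpow_nonneg (abs_nonneg _) _
  have h2 : 0 ≤ |ip (v j) x| ^ (p - 2) := Real.rpow_nonneg (abs_nonneg _) _
  simp only [one]
  positivity

/-! ### Measurability -/

lemma meas_rp (q : ℝ) (w : P2) : Measurable (fun x : P2 => |ip w x| ^ q) := by
  have h : Continuous (fun x : P2 => |ip w x|) := by
    unfold ip
    fun_prop
  exact h.measurable.pow_const q

lemma meas_Ph (p : ℝ) (v : κ → P2) (b : κ → ℝ) : Measurable (fun x => Ph p v b x) := by
  unfold Ph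
  exact Finset.measurable_sum _ fun k _ => (meas_rp p (v k)).const_mul _

lemma meas_DD (p : ℝ) (v : κ → P2) (b : κ → ℝ) : Measurable (fun x => DD p v b x) := by
  unfold DD
  refine Measurable.const_mul ?_ _
  refine Finset.measurable_sum _ fun i _ => Finset.measurable_sum _ fun j _ => ?_
  exact (((meas_rp (p - 2) (v i)).const_mul _).const_mul _).mul ((meas_rp (p - 2) (v j)).const_mul _)

lemma meas_s2 (p : ℝ) (v : κ → P2) (k : κ) : Measurable (fun x => s2 p v k x) := by
  unfold s2
  refine Finset.measurable_sum _ fun j _ => ?_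
  exact (((meas_rp (p - 2) (v k)).const_mul _).const_mul _).mul ((meas_rp (p - 2) (v j)).const_mul _)

omit [Fintype κ] in
lemma meas_tau (p : ℝ) (v : κ → P2) (k : κ) : Measurable (fun x => tau p v k x) := meas_rp p (v k)

/-! ### Scaling -/

lemma ip_smul (c : ℝ) (w x : P2) : ip (c • w) x = c * ip w x := by
  simp only [ip, Prod.smul_fst, Prod.smul_snd, smul_eq_mul]
  ring

lemma dt_smul (c : ℝ) (w w' : P2) : dt (c • w) (c • w') = c ^ 2 * dt w w' := by
  simp only [dt, Prod.smul_fst, Prod.smul_snd, smul_eq_mul]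
  ring

lemma rp_smul {c : ℝ} (hc : 0 < c) (q : ℝ) (w x : P2) :
    |ip (c • w) x| ^ q = c ^ q * |ip w x| ^ q := by
  rw [ip_smul, abs_mul, abs_of_pos hc, Real.mul_rpow hc.le (abs_nonneg _)]

lemma Ph_smul {c : ℝ} (hc : 0 < c) (p : ℝ) (v : κ → P2) (x : P2) :
    Ph p (fun k => c • v k) one x = c ^ p * Ph p v one x := by
  unfold Ph
  rw [Finset.mul_sum]
  refine Finset.sum_congr rfl fun k _ => ?_
  rw [rp_smul hc]
  ring

lemma s2_smul {c : ℝ} (hc : 0 < c) (p : ℝ) (v : κ → P2) (k : κ) (x : P2) :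
    s2 p (fun k => c • v k) k x = ((c ^ 2) ^ 2 * (c ^ (p - 2)) ^ 2) * s2 p v k x := by
  unfold s2
  rw [Finset.mul_sum]
  refine Finset.sum_congr rfl fun j _ => ?_
  rw [rp_smul hc, rp_smul hc, dt_smul]
  ring

lemma DD_smul {c : ℝ} (hc : 0 < c) (p : ℝ) (v : κ → P2) (x : P2) :
    DD p (fun k => c • v k) one x = ((c ^ 2) ^ 2 * (c ^ (p - 2)) ^ 2) * DD p v one x := by
  have e : ∑ i, ∑ j, dt (c • v i) (c • v j) ^ 2 * (p * one i * |ip (c • v i) x| ^ (p - 2)) *
      (p * one j * |ip (c • v j) x| ^ (p - 2)) = ((c ^ 2) ^ 2 * (c ^ (p - 2)) ^ 2) *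
      ∑ i, ∑ j, dt (v i) (v j) ^ 2 * (p * one i * |ip (v i) x| ^ (p - 2)) *
      (p * one j * |ip (v j) x| ^ (p - 2)) := by
    rw [Finset.mul_sum]
    refine Finset.sum_congr rfl fun i _ => ?_
    rw [Finset.mul_sum]
    refine Finset.sum_congr rfl fun j _ => ?_
    rw [rp_smul hc, rp_smul hc, dt_smul]
    ring
  unfold DD
  rw [e]
  ring

theorem DBA (h : S_IA) : S_DBA := by
  intro κ _ p h1 h2 v hv k
  have hp : 0 < p := by linarith
  obtain ⟨a1, -, -⟩ := h κ p h1 h2.le v hv
  obtain ⟨c, hc⟩ : ∃ c : ℝ, c = (1 / 2) ^ (1 / p) := ⟨_, rfl⟩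
  have hc0 : 0 < c := by
    rw [hc]
    positivity
  have hcp : c ^ p = 1 / 2 := by
    rw [hc, ← Real.rpow_mul (by norm_num), one_div_mul_cancel hp.ne', Real.rpow_one]
  obtain ⟨γ, hγ⟩ : ∃ γ, γ = (c ^ 2) ^ 2 * (c ^ (p - 2)) ^ 2 := ⟨_, rfl⟩
  have hγ0 : 0 < γ := by
    rw [hγ]
    positivity
  have hv' : Spans (fun k => c • v k) := by
    obtain ⟨i, j, hij⟩ := hv
    refine ⟨i, j, ?_⟩
    rw [dt_smul]
    exact mul_ne_zero (by positivity) hij
  obtain ⟨-, -, a3'⟩ := h κ p h1 h2.le (fun k => c • v k) hv'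
  obtain ⟨b1, -, b3, b4, -⟩ := a3' k
  have eP : ∀ x, Ph p (fun k => c • v k) one x = 1 / 2 * Ph p v one x := by
    intro x
    rw [Ph_smul hc0, hcp]
  have eT : ∀ x, tau p (fun k => c • v k) k x = 1 / 2 * tau p v k x := by
    intro x
    unfold tau
    rw [rp_smul hc0, hcp]
  have eS : ∀ x, s2 p (fun k => c • v k) k x = γ * s2 p v k x := by
    intro x
    rw [s2_smul hc0, ← hγ]
  have eD : ∀ x, DD p (fun k => c • v k) one x = γ * DD p v one x := by
    intro x
    rw [DD_smul hc0, ← hγ]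
  have key := hasDerivAt_integral_of_dominated_loc_of_deriv_le (μ := (volume : Measure P2))
    (x₀ := (0 : ℝ)) (s := Metric.ball (0 : ℝ) (1 / 2))
    (F := fun y x => Real.exp (-(Ph p v (bu k y) x)) * DD p v (bu k y) x)
    (F' := fun y x => Real.exp (-(Ph p v one x + y * tau p v k x)) *
      (s2 p v k x - tau p v k x * (DD p v one x + y * s2 p v k x)))
    (bound := fun x => Real.exp (-(1 / 2 * Ph p v one x)) *
      (s2 p v k x + tau p v k x * (DD p v one x + s2 p v k x)))
    (Metric.ball_mem_nhds _ (by norm_num)) ?_ ?_ ?_ ?_ ?_ ?_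
  · have e2 := key.2
    have e3 : (∫ x, Real.exp (-(Ph p v one x + 0 * tau p v k x)) *
        (s2 p v k x - tau p v k x * (DD p v one x + 0 * s2 p v k x))) = RR p v k := by
      unfold RR
      refine integral_congr_ae (Eventually.of_forall fun x => ?_)
      simp only [G1_eq]
      rw [zero_mul, zero_mul, add_zero, add_zero]
      ring
    rw [← e3]
    exact e2
  · refine Eventually.of_forall fun y => ?_
    exact ((meas_Ph p v _).neg.exp.mul (meas_DD p v _)).aestronglyMeasurable
  · refine a1.congr (Eventually.of_forall fun x => ?_)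
    simp only
    rw [Ph_bu, DD_bu, zero_mul, zero_mul, add_zero, add_zero]
  · refine Measurable.aestronglyMeasurable ?_
    exact ((meas_Ph p v _).add ((meas_tau p v k).const_mul _)).neg.exp.mul
      ((meas_s2 p v k).sub ((meas_tau p v k).mul ((meas_DD p v _).add ((meas_s2 p v k).const_mul _))))
  · refine Eventually.of_forall fun x y hy => ?_
    rw [Metric.mem_ball, Real.dist_eq, sub_zero] at hy
    have hy' := abs_lt.1 hy
    have t0 := tau_nonneg p v k x
    have t1 := tau_le p v k x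
    have s0 := s2_nonneg hp v k x
    have d0 := DD_nonneg hp v x
    rw [Real.norm_eq_abs, abs_mul, Real.abs_exp]
    refine mul_le_mul ?_ ?_ (abs_nonneg _) (Real.exp_pos _).le
    · refine Real.exp_le_exp.2 ?_
      nlinarith
    · have hys : |y * s2 p v k x| ≤ s2 p v k x := by
        rw [abs_mul, abs_of_nonneg s0]
        nlinarith
      have h5 : |DD p v one x + y * s2 p v k x| ≤ DD p v one x + s2 p v k x := by
        refine (abs_add_le _ _).trans ?_
        rw [abs_of_nonneg d0]
        linarith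
      calc |s2 p v k x - tau p v k x * (DD p v one x + y * s2 p v k x)|
          ≤ |s2 p v k x| + |tau p v k x * (DD p v one x + y * s2 p v k x)| := abs_sub _ _
        _ ≤ s2 p v k x + tau p v k x * (DD p v one x + s2 p v k x) := by
            rw [abs_of_nonneg s0, abs_mul, abs_of_nonneg t0]
            exact add_le_add le_rfl (mul_le_mul_of_nonneg_left h5 t0)
  · have i1 := ((b3.const_mul γ⁻¹).add (b1.const_mul (2 * γ⁻¹))).add (b4.const_mul (2 * γ⁻¹))
    refine i1.congr (Eventually.of_forall fun x => ?_)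
    simp only [Pi.add_apply, G1_eq]
    rw [eP, eT, eS, eD]
    field_simp
    ring
  · refine Eventually.of_forall fun x y _ => ?_
    have e1 : (fun y => Real.exp (-(Ph p v (bu k y) x)) * DD p v (bu k y) x) =
        fun y => Real.exp (-(Ph p v one x + y * tau p v k x)) * (DD p v one x + y * s2 p v k x) := by
      funext y
      rw [Ph_bu, DD_bu]
    rw [e1]
    have f1 : HasDerivAt (fun y : ℝ => -(Ph p v one x + y * tau p v k x)) (-(tau p v k x)) y := by
      exact HasDerivAt.congr_deriv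
        (((hasDerivAt_id y).mul_const (tau p v k x)).const_add (Ph p v one x)).neg (by rw [one_mul])
    have f2 : HasDerivAt (fun y : ℝ => DD p v one x + y * s2 p v k x) (s2 p v k x) y := by
      simpa using ((hasDerivAt_id y).mul_const (s2 p v k x)).const_add (DD p v one x)
    refine (f1.exp.mul f2).congr_deriv ?_
    ring

end Pool.Agent.H294.PL
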